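import Mathlib
import Pool.Agent.V11232.DS.Graph

/-!
# The dimension spectrum of the graph of a trigonometric polynomial is never a singleton

The negated form of Q1 of MP_39a050_lc: for every trigonometric polynomial `f` there are `x`, `y`
with `dim (x, f x) ≠ dim (y, f y)`.

If all points of the graph had one dimension, it would be at most one, the dimension of `(0, f 0)`,
so that all points of the graph would have complexity at most `(1 + ε) r` infinitely often. Then for
infinitely many precisions `r` at least `2 ^ ((1 - ε) r)` of the `2 ^ r` cells of the graph contain a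
rational point of complexity at most `(1 + ε) r`. A dependent choice count with the rigidity of
trigonometric polynomials (Lagrange interpolation at `2 m + 1` separated nodes) shows that there are
only `2 ^ (c ε r)` possible values at zero (up to `2 ^ (-r)`) of the trigonometric polynomials with
this property, so that `dim (0, f 0)` is at most `1 / 2`. However, almost all points of the graph
have dimension at least `3 / 4`.
-/

set_option autoImplicit false

namespace Pool.Agent.Results.MP_39a050_lc.NoSingleton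

open Filter
open Pool.Agent.Helper981.KP (KPof OptimalPF)
open Pool.Agent.V11232.DS (IsCoding Kr)
open scoped ENNReal

/-- The effective Hausdorff dimension of the point `z` of the plane: the lower limit of
`K_r(z) / r`. -/
noncomputable def dim (U : List Bool →. List Bool) (code : ℚ × ℚ → List Bool) (z : ℝ × ℝ) : ℝ≥0∞ :=
  liminf (fun r : ℕ => (Kr U code z r : ℝ≥0∞) / r) atTop

/-- `f` is a trigonometric polynomial with real coefficients. -/
def IsTrigPoly (f : ℝ → ℝ) : Prop :=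
  ∃ (m : ℕ) (a b : ℕ → ℝ), ∀ x : ℝ, f x = a 0 +
    ∑ k ∈ Finset.Icc 1 m, (a k * Real.cos (k * x) + b k * Real.sin (k * x))

theorem div_le_ofReal {k r : ℕ} {c : ℝ} (hc : 0 ≤ c) (h : (k : ℝ) ≤ c * r) :
    (k : ℝ≥0∞) / r ≤ ENNReal.ofReal c := by
  refine ENNReal.div_le_of_le_mul ?_
  rw [← ENNReal.ofReal_natCast k, ← ENNReal.ofReal_natCast r, ← ENNReal.ofReal_mul hc]
  exact ENNReal.ofReal_le_ofReal h

theorem ofReal_le_div {k r : ℕ} (hr : 0 < r) {c : ℝ} (hc : 0 ≤ c) (h : c * r ≤ (k : ℝ)) :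
    ENNReal.ofReal c ≤ (k : ℝ≥0∞) / r := by
  rw [ENNReal.le_div_iff_mul_le (Or.inl (by exact_mod_cast hr.ne')) (Or.inl (by simp))]
  rw [← ENNReal.ofReal_natCast k, ← ENNReal.ofReal_natCast r, ← ENNReal.ofReal_mul hc]
  exact ENNReal.ofReal_le_ofReal h

theorem size_small (K : ℕ) : ∃ N, ∀ r ≥ N, K * Nat.size r ≤ r := by
  rcases Nat.eq_zero_or_pos K with hK | hK
  · exact ⟨0, fun r _ => by rw [hK, zero_mul]; exact Nat.zero_le r⟩
  refine ⟨K * (4 * K + 2), fun r hr => ?_⟩
  obtain ⟨n, hn⟩ : ∃ n, n = r / K := ⟨_, rfl⟩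
  have h1 : K * n ≤ r := by rw [hn]; exact Nat.mul_div_le r K
  have h2 : r < K * (n + 1) := by rw [hn]; exact Nat.lt_mul_div_succ r hK
  have h3 : 4 * K + 2 ≤ n := by
    rw [hn, Nat.le_div_iff_mul_le hK]
    linarith
  have h4 : Nat.size r ≤ n := by
    rw [Nat.size_le]
    obtain ⟨t, ht⟩ : ∃ t, t = n / 2 := ⟨_, rfl⟩
    have a1 : 2 * K + 1 ≤ t := by omega
    have a2 : n ≤ 2 * t + 1 := by omega
    have a3 : 2 * t ≤ n := by omega
    have a4 : t + 1 ≤ 2 ^ t := Nat.lt_two_pow_self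
    calc r ≤ K * (2 * t + 2) := h2.le.trans (Nat.mul_le_mul_left K (by omega))
      _ = 2 * K * (t + 1) := by ring
      _ < (t + 1) * (t + 1) := Nat.mul_lt_mul_of_pos_right (by omega) (by omega)
      _ ≤ 2 ^ t * 2 ^ t := Nat.mul_le_mul a4 a4
      _ = 2 ^ (2 * t) := by rw [← pow_add, two_mul]
      _ ≤ 2 ^ n := Nat.pow_le_pow_right (by norm_num) a3
  exact (Nat.mul_le_mul_left K h4).trans h1

/-- the dimension of the point over zero is at most one -/
theorem dim_zero {U : List Bool →. List Bool} (hU : OptimalPF U) {code : ℚ × ℚ → List Bool}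
    (hcode : IsCoding code) (f0 : ℝ) {h : ℕ} (hh : 0 < h) :
    dim U code (0, f0) ≤ ENNReal.ofReal (1 + 1 / (2 * h)) := by
  obtain ⟨M, hM⟩ := exists_nat_ge (|f0| + 1)
  obtain ⟨c', hc'⟩ := Pool.Agent.V11232.DS.upper0 hU hcode M
  obtain ⟨N, hN⟩ := size_small (8 * h)
  refine liminf_le_of_frequently_le' (Eventually.frequently ?_)
  filter_upwards [eventually_ge_atTop N, eventually_ge_atTop (4 * (h * (1 + c')) + 1)] with r h1 h2
  refine div_le_ofReal (by positivity) ?_
  have hX : (0 : ℝ) < 2 ^ (r + 1) := by positivity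
  have hv1 := Int.floor_le (f0 * 2 ^ (r + 1))
  have hv2 := Int.lt_floor_add_one (f0 * 2 ^ (r + 1))
  have hv3 : (⌊f0 * 2 ^ (r + 1)⌋).natAbs ≤ M * 2 ^ (r + 1) := by
    have : (((⌊f0 * 2 ^ (r + 1)⌋).natAbs : ℕ) : ℝ) ≤ ((M * 2 ^ (r + 1) : ℕ) : ℝ) := by
      rw [Nat.cast_natAbs, Int.cast_abs]
      push_cast
      have hX1 : (1 : ℝ) ≤ 2 ^ (r + 1) := one_le_pow₀ (by norm_num)
      have b1 := abs_le.1 (le_refl |f0|)
      have b2 : (|f0| + 1) * 2 ^ (r + 1) ≤ M * 2 ^ (r + 1) := by gcongr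
      rw [abs_le]
      constructor
      · nlinarith [mul_le_mul_of_nonneg_right b1.1 hX.le]
      · nlinarith [mul_le_mul_of_nonneg_right b1.2 hX.le]
    exact_mod_cast this
  have hK := hc' (r + 1) _ hv3
  have hlt : √((((0 : ℚ) : ℝ) - 0) ^ 2 + ((((⌊f0 * 2 ^ (r + 1)⌋ : ℚ) / 2 ^ (r + 1) : ℚ) : ℝ) -
      f0) ^ 2) < (1 / 2) ^ r := by
    have e1 : ((((0 : ℚ) : ℝ) - 0) ^ 2 + ((((⌊f0 * 2 ^ (r + 1)⌋ : ℚ) / 2 ^ (r + 1) : ℚ) : ℝ) -
      f0) ^ 2) = ((⌊f0 * 2 ^ (r + 1)⌋ : ℝ) / 2 ^ (r + 1) - f0) ^ 2 := by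
      push_cast
      ring
    rw [e1, Real.sqrt_sq_eq_abs]
    have e2 : (⌊f0 * 2 ^ (r + 1)⌋ : ℝ) / 2 ^ (r + 1) - f0 =
        (⌊f0 * 2 ^ (r + 1)⌋ - f0 * 2 ^ (r + 1)) / 2 ^ (r + 1) := by field_simp
    rw [e2, abs_div, abs_of_pos hX, div_lt_iff₀ hX]
    have e3 : (1 / 2 : ℝ) ^ r * 2 ^ (r + 1) = 2 := by
      rw [pow_succ, ← mul_assoc, ← mul_pow]; norm_num
    rw [e3, abs_lt]
    constructor <;> linarith
  have hle := (Pool.Agent.V11232.DS.Kr_le (U := U) (code := code) (z := (0, f0)) (r := r)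
    (q := ((0 : ℚ), ((⌊f0 * 2 ^ (r + 1)⌋ : ℚ) / 2 ^ (r + 1) : ℚ))) hlt).trans hK
  have h3 := hN (r + 1) (by omega)
  have h4 : 2 * h * Kr U code (0, f0) r ≤ 2 * h * r + r := by
    have h5 := Nat.mul_le_mul_left (2 * h) hle
    have h6 : 2 * h * (r + 1 + 2 * Nat.size (r + 1) + c') =
        2 * h * r + 2 * (h * (1 + c')) + 4 * (h * Nat.size (r + 1)) := by ring
    rw [h6] at h5
    have h7 : 8 * h * Nat.size (r + 1) = 8 * (h * Nat.size (r + 1)) := by ring
    rw [h7] at h3
    omega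
  have h5 : (2 * h * Kr U code (0, f0) r : ℝ) ≤ 2 * h * r + r := by exact_mod_cast h4
  have hh' : (0 : ℝ) < 2 * h := by positivity
  have e4 : (1 + 1 / (2 * (h : ℝ))) * r = (2 * h * r + r) / (2 * h) := by
    field_simp
  rw [e4, le_div_iff₀ hh']
  linarith

/-- **The dimension spectrum of the graph of a trigonometric polynomial has at least two
elements.** For every optimal self-delimiting machine `U`, every computable coding of the rational
points of the plane and every trigonometric polynomial `f` there are `x` and `y` such that the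
dimensions of the points `(x, f x)` and `(y, f y)` differ. -/
theorem result {U : List Bool →. List Bool} (hU : OptimalPF U) {code : ℚ × ℚ → List Bool}
    (hcode : IsCoding code) {f : ℝ → ℝ} (hf : IsTrigPoly f) :
    ∃ x y : ℝ, dim U code (x, f x) ≠ dim U code (y, f y) := by
  by_contra hcon
  push Not at hcon
  obtain ⟨m, a, b, hf⟩ := hf
  have hf' : f = Pool.Agent.V11232.DS.tr m a b := by
    funext x
    rw [hf x]
    unfold Pool.Agent.V11232.DS.tr
    rw [Finset.range_eq_Ico, Finset.sum_eq_sum_Ico_succ_bot (Nat.succ_pos m)]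
    have e : Finset.Icc 1 m = Finset.Ico (0 + 1) (m + 1) := by
      ext k
      rw [Finset.mem_Icc, Finset.mem_Ico]
      omega
    rw [e]
    simp
  subst hf'
  obtain ⟨h, hh⟩ : ∃ h, h = 16 * (8 * m + 3) := ⟨_, rfl⟩
  have hh0 : 0 < h := by omega
  have hh' : (0 : ℝ) < h := by exact_mod_cast hh0
  obtain ⟨C, hC⟩ := exists_nat_ge
    (3 + (∑ k ∈ Finset.range (m + 1), (|a k| + |b k|) * k) + 2 * ((m : ℝ) + 1))
  -- all points have small complexity infinitely often
  have hK : ∀ x ∈ Set.Icc (0 : ℝ) (1 / 4), ∃ᶠ r in atTop,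
      Kr U code (x, Pool.Agent.V11232.DS.tr m a b x) r ≤ r + r / h := by
    intro x _
    have h1 : dim U code (x, Pool.Agent.V11232.DS.tr m a b x) < ENNReal.ofReal (1 + 1 / h) := by
      rw [hcon x 0]
      refine lt_of_le_of_lt (dim_zero hU hcode _ hh0) ?_
      refine (ENNReal.ofReal_lt_ofReal_iff (by positivity)).2 ?_
      have : 1 / (2 * (h : ℝ)) < 1 / h := by
        apply one_div_lt_one_div_of_lt hh'
        linarith
      linarith
    have h2 := frequently_lt_of_liminf_lt (by isBoundedDefault) h1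
    refine (h2.and_eventually (eventually_gt_atTop 0)).mono fun r hr => ?_
    obtain ⟨hr1, hr2⟩ := hr
    by_contra h3
    rw [not_le] at h3
    refine absurd hr1 (not_lt.2 (ofReal_le_div hr2 (by positivity) ?_))
    have h4 : r < h * (r / h + 1) := Nat.lt_mul_div_succ r hh0
    have h5 : h * (r + (r / h + 1)) ≤ h * Kr U code (x, Pool.Agent.V11232.DS.tr m a b x) r :=
      Nat.mul_le_mul_left h (by omega)
    have h6 : h * r + r ≤ h * Kr U code (x, Pool.Agent.V11232.DS.tr m a b x) r := by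
      rw [mul_add] at h5
      omega
    have h7 : (h : ℝ) * r + r ≤ h * Kr U code (x, Pool.Agent.V11232.DS.tr m a b x) r := by
      exact_mod_cast h6
    have e : (1 + 1 / (h : ℝ)) * r = (h * r + r) / h := by field_simp
    rw [e, div_le_iff₀ hh']
    linarith
  have hvv := Pool.Agent.V11232.DS.vv_freq hU hh0 hC hK
  obtain ⟨c', hc'⟩ := Pool.Agent.V11232.DS.cand hU hcode m C h
  obtain ⟨N, hN⟩ := size_small 16
  -- the dimension over zero is at most one half
  have hlow : dim U code (0, Pool.Agent.V11232.DS.tr m a b 0) ≤ ENNReal.ofReal (1 / 2) := by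
    refine liminf_le_of_frequently_le' (frequently_atTop.2 fun n => ?_)
    obtain ⟨B0, hB0⟩ : ∃ B0, B0 = (2 * m + 1) + (C + 1) +
      2 * m * (Pool.Agent.V11232.DS.c0 m + 3) + 1 +
      (2 * m + 1) * (C + Pool.Agent.V11232.DS.c0 m + 4) := ⟨_, rfl⟩
    obtain ⟨r, hr, v, hv1, hv2⟩ := (frequently_atTop.1 hvv)
      (n + N + (m + 1) + 2 * Pool.Agent.V11232.DS.c0 m + 4 + 2 * (4 * B0 + 2 * c' + (m + 1)) + 1)
    refine ⟨r - (m + 1), by omega, div_le_ofReal (by norm_num) ?_⟩
    have hdiv : h * (r / h) ≤ r := Nat.mul_div_le r h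
    have hdiv2 : 16 * ((8 * m + 3) * (r / h)) ≤ r := by
      calc 16 * ((8 * m + 3) * (r / h)) = h * (r / h) := by rw [hh]; ring
        _ ≤ r := hdiv
    have hdiv3 : 3 * (r / h) ≤ (8 * m + 3) * (r / h) := Nat.mul_le_mul_right _ (by omega)
    have hbb : Pool.Agent.V11232.DS.bb m C h r = (8 * m + 3) * (r / h) + B0 := by
      rw [hB0]
      unfold Pool.Agent.V11232.DS.bb
      ring
    have hsz := hN r (by omega)
    have h1 := hc' r (by omega) v hv1
    rw [hbb] at h1
    have hlt : √((((0 : ℚ) : ℝ) - 0) ^ 2 + ((((v : ℚ) / 2 ^ r : ℚ) : ℝ) -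
        Pool.Agent.V11232.DS.tr m a b 0) ^ 2) < (1 / 2) ^ (r - (m + 1)) := by
      have hX : (0 : ℝ) < 2 ^ r := by positivity
      have e1 : ((((0 : ℚ) : ℝ) - 0) ^ 2 + ((((v : ℚ) / 2 ^ r : ℚ) : ℝ) -
          Pool.Agent.V11232.DS.tr m a b 0) ^ 2) =
          ((v : ℝ) / 2 ^ r - Pool.Agent.V11232.DS.tr m a b 0) ^ 2 := by
        push_cast
        ring
      rw [e1, Real.sqrt_sq_eq_abs]
      have e2 : (v : ℝ) / 2 ^ r - Pool.Agent.V11232.DS.tr m a b 0 =
          (v - Pool.Agent.V11232.DS.tr m a b 0 * 2 ^ r) / 2 ^ r := by field_simp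
      rw [e2, abs_div, abs_of_pos hX, div_lt_iff₀ hX]
      refine lt_of_le_of_lt hv2 ?_
      have e3 : (1 / 2 : ℝ) ^ (r - (m + 1)) * 2 ^ r = 2 ^ (m + 1) := by
        have e4 : r = (r - (m + 1)) + (m + 1) := by omega
        conv_lhs => rw [e4, pow_add (2 : ℝ), ← mul_assoc]
        have e5 : r - (m + 1) + (m + 1) - (m + 1) = r - (m + 1) := by omega
        rw [e5, ← mul_pow]
        norm_num
      rw [e3]
      exact_mod_cast (Nat.lt_two_pow_self : m + 1 < 2 ^ (m + 1))
    have h2 := (Pool.Agent.V11232.DS.Kr_le (U := U) (code := code)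
      (z := (0, Pool.Agent.V11232.DS.tr m a b 0)) (r := r - (m + 1))
      (q := ((0 : ℚ), ((v : ℚ) / 2 ^ r : ℚ))) hlt).trans h1
    have h3 : 2 * Kr U code (0, Pool.Agent.V11232.DS.tr m a b 0) (r - (m + 1)) ≤ r - (m + 1) := by
      omega
    have h4 : (2 : ℝ) * Kr U code (0, Pool.Agent.V11232.DS.tr m a b 0) (r - (m + 1)) ≤
        ((r - (m + 1) : ℕ) : ℝ) := by exact_mod_cast h3
    linarith
  -- almost all points have dimension at least three quarters
  obtain ⟨x, hx⟩ := Pool.Agent.V11232.DS.exists_high hU hcode.1 (Pool.Agent.V11232.DS.tr m a b)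
  have hhigh : ENNReal.ofReal (3 / 4) ≤ dim U code (x, Pool.Agent.V11232.DS.tr m a b x) := by
    refine le_liminf_of_le (by isBoundedDefault) ?_
    filter_upwards [hx, eventually_gt_atTop 0] with r h1 h2
    refine ofReal_le_div h2 (by norm_num) ?_
    have h3 : (3 : ℝ) * r < 4 * Kr U code (x, Pool.Agent.V11232.DS.tr m a b x) r := by
      exact_mod_cast h1
    linarith
  rw [hcon x 0] at hhigh
  have hfin := hhigh.trans hlow
  rw [ENNReal.ofReal_le_ofReal_iff (by norm_num)] at hfin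
  norm_num at hfin

end Pool.Agent.Results.MP_39a050_lc.NoSingleton
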